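import Mathlib.FieldTheory.RatFunc.AsPolynomial
import Mathlib.FieldTheory.RatFunc.Basic

/-! Rationally connected varieties, in terms of the function field. -/

set_option autoImplicit false

namespace Pool.Agent.K1H17.MT

/-- The rational function `g` of one variable over `E` is regular at `t`, with the value `c`. -/
def HasValue {E : Type} [Field E] (g : RatFunc E) (t c : E) : Prop :=
  ∃ a b : Polynomial E, b.eval t ≠ 0 ∧ a.eval t = c * b.eval t ∧
    g * algebraMap (Polynomial E) (RatFunc E) b = algebraMap (Polynomial E) (RatFunc E) a

/-- The smooth projective varieties `X` over `F` with function field `K` are rationally connected: two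
general points can be joined by a rational curve. That is: there is a variety `Y` over `F`, with
function field `E`, and a rational map `ψ : ℙ¹ × Y ⇢ X` (a family of rational curves), such that
`p = ψ (0, -)` and `q = ψ (1, -)` are dominant rational maps `Y ⇢ X` for which
`(p, q) : Y ⇢ X × X` is dominant (if the `f i` are linearly independent functions on `X`, and the
`g i` are not all zero, then `∑ i, p (f i) * q (g i) ≠ 0`). -/
def RationallyConnected (F K : Type) [Field F] [Field K] [Algebra F K] : Prop :=
  ∃ (E : Type) (_ : Field E) (_ : Algebra F E) (ψ : K →ₐ[F] RatFunc E) (p q : K →ₐ[F] E),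
    (∀ f, HasValue (ψ f) 0 (p f) ∧ HasValue (ψ f) 1 (q f)) ∧
    ∀ (m : ℕ) (f g : Fin m → K), LinearIndependent F f → ∑ i, p (f i) * q (g i) = 0 → g = 0

end Pool.Agent.K1H17.MT
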