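import Pool.Agent.K1H17.MT.Defs
import Pool.Agent.K1H17.IS.Uf
import Pool.Agent.TH466.QT.Tens

/-! Tensor differentials on varieties which dominate quotients of products. -/

set_option autoImplicit false
set_option linter.overlappingInstances false
set_option linter.unusedSectionVars false
set_option linter.style.haveILetI false

open FF IntermediateField Pool.Agent.W619.PQ Pool.Agent.W619.PL Pool.Agent.W619.TW
  Pool.Agent.W619.Y Pool.Agent.K1H17.IS

namespace Pool.Agent.K1H17.MT

/-- Over a point: change of the base. -/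
theorem rc_of_surj {k F K : Type} [Field k] [Field F] [Field K] [Algebra k F] [Algebra F K]
    [Algebra k K] [IsScalarTower k F K] (hs : Function.Surjective (algebraMap k F))
    (h : RationallyConnected F K) : RationallyConnected k K := by
  obtain ⟨E, i1, i2, ψ, p, q, h1, h2⟩ := h
  letI : Algebra k E := ((algebraMap F E).comp (algebraMap k F)).toAlgebra
  haveI : IsScalarTower k F E := IsScalarTower.of_algebraMap_eq fun _ => rfl
  refine ⟨E, i1, inferInstance, ⟨ψ.toRingHom, fun c => ?_⟩, p.restrictScalars k,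
    q.restrictScalars k, h1, fun m f g hf he => h2 m f g ?_ he⟩
  · change ψ (algebraMap k K c) = _
    rw [IsScalarTower.algebraMap_apply k F K, ψ.commutes]
    rfl
  · rw [Fintype.linearIndependent_iff] at hf ⊢
    intro c hc i
    choose d hd using fun i => hs (c i)
    have h3 : ∑ i, d i • f i = 0 := by
      rw [← hc]
      refine Finset.sum_congr rfl fun i _ => ?_
      rw [← hd i, algebraMap_smul]
    rw [← hd i, hf d h3 i, map_zero]

variable {k : Type} [Field k] [CharZero k] [IsAlgClosed k]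

/-- A dominant map to a variety of positive dimension and nonnegative Kodaira dimension gives a
tensor differential. -/
theorem not_vanish_of_kod {K V : Type} [Field K] [Algebra k K] [Field V] [Algebra k V] {n d : ℕ}
    (hn : Algebra.trdeg k K = n) (φ : V →ₐ[k] K) (hV : Algebra.trdeg k V = d)
    (hess : Algebra.EssFiniteType k V) (hd : 1 ≤ d) (h : ¬ KodairaNeg k V d) :
    ¬ TensorVanish k K n := by
  have e : V ≃ₐ[k] φ.fieldRange := AlgEquiv.ofInjectiveField φ
  have h1 : KodTr k φ.fieldRange d 0 :=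
    Pool.Agent.Y174.kod_equiv e hess hV (not_not.1 fun h2 => h (kod0_iff.1 h2))
  have hess' : Algebra.EssFiniteType k φ.fieldRange :=
    (Algebra.EssFiniteType.iff_of_algEquiv e).1 hess
  have hd' : Algebra.trdeg k φ.fieldRange = d := by rw [← hV]; exact e.symm.trdeg_eq
  have h2 : ¬ KodairaNeg k φ.fieldRange d := fun h3 => kod0_iff.2 h3 h1
  unfold KodairaNeg at h2
  push Not at h2
  obtain ⟨m, hm, ω, hω, hreg, D, hD⟩ := h2
  exact Pool.Agent.TH466.QT.not_vanish hn φ.fieldRange hd' hd hm ω hω hreg D hD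

theorem main {K : Type} [Field K] [Algebra k K] {n : ℕ} (hn : Algebra.trdeg k K = n)
    (V : IntermediateField k K) (hV : RationallyConnected V K)
    {L : Type} [Field L] [Algebra k L] {r : ℕ} (M : Fin r → IntermediateField k L)
    (a : Fin r → ℕ) (G : Subgroup (L ≃ₐ[k] L)) [Finite G] (h : IsDiagonal M a G)
    (s : Fin r → (L ≃ₐ[k] L) → ℝ)
    (hs : ∀ i, (∀ g ∈ G, s i g ≤ 0) ∨ OrbEffective (M i) G (a i) (s i)) (hg : AgeCond M G s)
    (hκ : ∀ i, ¬ KodairaNeg k (M i) (a i)) (φ : fixedField G →ₐ[k] V)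
    (hpos : (∀ i, a i = 0) → V = ⊥) (hT : TensorVanish k K n) :
    V = ⊥ ∧ RationallyConnected k K := by
  obtain ⟨h1, h2⟩ := h.quot
  have h3 : ¬ KodairaNeg k (fixedField G) (∑ i, a i) := fun h4 => by
    obtain ⟨i, hi⟩ := (h.kodairaNeg s hs hg).1 h4
    exact hκ i hi
  have h4 : ∑ i, a i = 0 := by
    by_contra hne
    exact not_vanish_of_kod hn (V.val.comp φ) h1 h2 (Nat.one_le_iff_ne_zero.2 hne) h3 hT
  have h5 : V = ⊥ := hpos fun i => (Finset.sum_eq_zero_iff.1 h4) i (Finset.mem_univ i)
  refine ⟨h5, rc_of_surj (F := V) ?_ hV⟩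
  rintro ⟨x, hx⟩
  rw [h5, mem_bot] at hx
  obtain ⟨c, hc⟩ := hx
  exact ⟨c, Subtype.ext hc⟩

end Pool.Agent.K1H17.MT
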