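import Pool.Agent.K1H17.MT.Main
import Pool.Agent.TH466.QT.Spec
import Pool.Agent.TH466.QT.Den

/-! Special varieties which dominate quotients of products of varieties of general type. -/

set_option autoImplicit false
set_option linter.overlappingInstances false
set_option linter.unusedSectionVars false
set_option linter.style.haveILetI false

open FF IntermediateField Pool.Agent.W619.PQ Pool.Agent.W619.PL Pool.Agent.W619.TW
  Pool.Agent.W619.Y Pool.Agent.K1H17.IS Pool.Agent.W602.GT

namespace Pool.Agent.K1H17.MT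

/-- The variety with function field `K` over `F` is unirational: `K` embeds over `F` into a field
`F(t 1, ..., t m)` of rational functions. -/
def Unirational (F K : Type) [Field F] [Field K] [Algebra F K] : Prop :=
  ∃ m : ℕ, Nonempty (K →ₐ[F] FractionRing (MvPolynomial (Fin m) F))

variable {k : Type} [Field k] [CharZero k] [IsAlgClosed k]

theorem generalType_of_kod {V : Type} [Field V] [Algebra k V] {d : ℕ}
    (hV : Algebra.trdeg k V = d) (h : KodTr k V d d) : GeneralType k V d := by
  obtain ⟨m, hm, ω, hω, D, hD, hind⟩ := h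
  refine ⟨hV, m, hm, ω, fun j => (hω j).1, fun P hP j D hD => ?_, D, hD 0, hind⟩
  rcases (hω j).2.1 P hP not_false D hD with h1 | ⟨s, -, -, h1⟩
  · exact Or.inl h1
  · refine Or.inr ?_
    rw [Nat.cast_zero, zero_mul] at h1
    exact h1

theorem kod_of_generalType {V : Type} [Field V] [Algebra k V] {d : ℕ}
    (h : GeneralType k V d) : KodTr k V d d := by
  obtain ⟨-, m, hm, ω, hω, hreg, D, hD, hind⟩ := h
  refine ⟨m, hm, ω, fun l => ⟨hω l, fun v hv _ D hD => ?_, fun v _ hb => absurd hb (by simp)⟩,
    D, fun l => ?_, hind⟩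
  · rcases hreg v hv l D hD with h1 | h1
    · exact Or.inl h1
    · refine Or.inr ⟨1, Finset.mem_singleton_self _, one_ne_zero, ?_⟩
      rw [Nat.cast_zero, zero_mul]
      exact h1
  · refine Fin.cases hD (fun i h0 => ?_) l
    have h1 := hind.ne_zero i
    rw [h0, zero_div] at h1
    exact h1 rfl

theorem generalType_equiv {V V' : Type} [Field V] [Algebra k V] [Field V'] [Algebra k V']
    (e : V ≃ₐ[k] V') {d : ℕ} (hess : Algebra.EssFiniteType k V) (hV : Algebra.trdeg k V = d)
    (h : KodTr k V d d) : GeneralType k V' d :=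
  generalType_of_kod (by rw [← hV]; exact e.symm.trdeg_eq) (Pool.Agent.Y174.kod_equiv e hess hV h)

/-- Over a point: change of the base. -/
theorem unirational_of_surj {k V K : Type} [Field k] [Field V] [Field K] [Algebra k V]
    [Algebra V K] [Algebra k K] [IsScalarTower k V K] (hs : Function.Surjective (algebraMap k V))
    (h : Unirational V K) : ∃ m, IsUnirational k K m := by
  obtain ⟨m, ⟨φ⟩⟩ := h
  let e : k ≃+* V := RingEquiv.ofBijective (algebraMap k V) ⟨(algebraMap k V).injective, hs⟩
  have hinj : Function.Injective (MvPolynomial.map (σ := Fin m) (e.symm : V →+* k)) :=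
    MvPolynomial.map_injective _ e.symm.injective
  let ψ : FractionRing (MvPolynomial (Fin m) V) →+* FractionRing (MvPolynomial (Fin m) k) :=
    IsFractionRing.map hinj
  refine ⟨m, ⟨⟨ψ.comp φ.toRingHom, fun c => ?_⟩⟩⟩
  change ψ (φ (algebraMap k K c)) = _
  rw [IsScalarTower.algebraMap_apply k V K, φ.commutes,
    IsScalarTower.algebraMap_apply V (MvPolynomial (Fin m) V)
      (FractionRing (MvPolynomial (Fin m) V)),
    IsScalarTower.algebraMap_apply k (MvPolynomial (Fin m) k)
      (FractionRing (MvPolynomial (Fin m) k))]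
  have h1 : ψ (algebraMap (MvPolynomial (Fin m) V) (FractionRing (MvPolynomial (Fin m) V))
      (algebraMap V (MvPolynomial (Fin m) V) (algebraMap k V c))) =
      algebraMap (MvPolynomial (Fin m) k) (FractionRing (MvPolynomial (Fin m) k))
      (MvPolynomial.map (e.symm : V →+* k) (algebraMap V (MvPolynomial (Fin m) V)
        (algebraMap k V c))) := IsLocalization.map_eq _ _
  rw [h1, MvPolynomial.algebraMap_eq, MvPolynomial.map_C, MvPolynomial.algebraMap_eq]
  congr 2
  exact e.symm_apply_apply c

theorem mainS {K : Type} [Field K] [Algebra k K] {n : ℕ} (hn : Algebra.trdeg k K = n)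
    (V : IntermediateField k K) (hV : Unirational V K)
    {L : Type} [Field L] [Algebra k L] {r : ℕ} (M : Fin r → IntermediateField k L)
    (a : Fin r → ℕ) (G : Subgroup (L ≃ₐ[k] L)) [Finite G] (h : IsDiagonal M a G)
    (s : Fin r → (L ≃ₐ[k] L) → ℝ)
    (hs : ∀ i, (∀ g ∈ G, s i g ≤ 0) ∨ OrbEffective (M i) G (a i) (s i)) (hg : WeightCond M G s)
    (hκ : ∀ i, GeneralType k (M i) (a i)) (φ : fixedField G →ₐ[k] V)
    (hpos : (∀ i, a i = 0) → V = ⊥) (hT : Special k K n (fun _ => False)) :
    V = ⊥ ∧ (∃ m, IsUnirational k K m) ∧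
      ∀ (N : ℕ) (x : Fin (N + 1) → K), x ≠ 0 → Pool.Agent.TH466.QT.PotentiallyDense k x := by
  obtain ⟨h1, h2⟩ := h.quot
  have h3 := (h.kod s hs hg fun i => kod_of_generalType (hκ i)).1
  have h4 : ∑ i, a i = 0 := by
    by_contra hne
    let ψ : fixedField G →ₐ[k] K := V.val.comp φ
    have e : fixedField G ≃ₐ[k] ψ.fieldRange := AlgEquiv.ofInjectiveField ψ
    have hess' : Algebra.EssFiniteType k ψ.fieldRange :=
      (Algebra.EssFiniteType.iff_of_algEquiv e).1 h2
    exact Pool.Agent.TH466.QT.not_special hn ψ.fieldRange (Nat.one_le_iff_ne_zero.2 hne)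
      (generalType_equiv e h2 h1 h3) hT
  have h5 : V = ⊥ := hpos fun i => (Finset.sum_eq_zero_iff.1 h4) i (Finset.mem_univ i)
  have h6 : ∃ m, IsUnirational k K m := by
    refine unirational_of_surj (V := V) ?_ hV
    rintro ⟨x, hx⟩
    rw [h5, mem_bot] at hx
    obtain ⟨c, hc⟩ := hx
    exact ⟨c, Subtype.ext hc⟩
  obtain ⟨m, hm⟩ := h6
  exact ⟨h5, ⟨m, hm⟩, fun N x hx => Pool.Agent.TH466.QT.dense_of_unirational hm hx⟩

end Pool.Agent.K1H17.MT
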